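import Pool.Agent.Helper19.PS.SharpC

/-!
# The volume of unit vector fields on odd-dimensional spheres: the exact lower bound

For every `m ≥ 3` and every `C¹` unit tangent vector field `W` on the round unit sphere `S` of a
`(2m+2)`-dimensional Euclidean space, `Vol(W) ≥ c*(m,1) vol(S)`, where
`c*(m,1) = 16^m / binom(4m,2m)` is the normalised volume of the parallel transport field; with the
known upper bound this gives `𝒱(m,1) = c*(m,1) vol(S)`.

More generally, for `m ≥ 2`, `r > 0` and `C¹` tangent fields `W` of constant length `r`,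
`Vol(W) ≥ (c(m,r) + min(1, r^(2m)) (B(m) - c(m,1))) vol(S)` with
`c(m,r) = ∑ⱼ binom(m,j)² binom(2m,2j)⁻¹ r^(2j)`, `B(m) = 16^m / binom(4m,2m)` for `m ≥ 3` and
`B(2) = √π Γ(9/2)/Γ(4) √(9/8) ≥ (255/256) · 256/70`.
-/

open MeasureTheory Set Metric Module
open scoped RealInnerProductSpace Real Manifold ContDiff

namespace Pool.Agent.Results.MP_19c155_gt.ExactUnitVolume

open Classical in
/-- The radially constant extension `y ↦ W (y/|y|)` of a map on the unit sphere (`0` at `0`). -/
noncomputable def radialExt {E : Type*} [NormedAddCommGroup E] [InnerProductSpace ℝ E]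
    (W : sphere (0 : E) 1 → E) (y : E) : E :=
  if hy : y = 0 then 0
  else W ⟨‖y‖⁻¹ • y, mem_sphere_zero_iff_norm.2 (Pool.Agent.Helper20.VF.norm_normalize hy)⟩

/-- The covariant derivative `(∇W)_x` at a point `x` of the unit sphere `S ⊂ E` of a vector field
`W : S → E`: the orthogonal projection to `x^⊥ = T_x S` of the derivative at `x` of the radially
constant extension of `W`.  As an operator on `E = ℝx ⊕ T_x S` it is zero on `ℝx`, and it has
values in `T_x S`. -/
noncomputable def covDeriv {E : Type*} [NormedAddCommGroup E] [InnerProductSpace ℝ E]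
    (W : sphere (0 : E) 1 → E) (x : sphere (0 : E) 1) : E →L[ℝ] E :=
  fderiv ℝ (radialExt W) x - ((innerSL ℝ (x : E)) ∘L fderiv ℝ (radialExt W) x).smulRight (x : E)

/-- The volume of a vector field on the unit sphere: `∫_S √det (I + (∇W)ᵗ ∇W)` with respect to the
surface measure. -/
noncomputable def fieldVolume {E : Type*} [NormedAddCommGroup E] [InnerProductSpace ℝ E]
    [FiniteDimensional ℝ E] [MeasurableSpace E] [BorelSpace E] (W : sphere (0 : E) 1 → E) : ℝ :=
  ∫ x : sphere (0 : E) 1, √((1 + (covDeriv W x).adjoint ∘L covDeriv W x).det)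
    ∂(volume : Measure E).toSphere

/-- `c(m,r) = ∑ⱼ binom(m,j)² binom(2m,2j)⁻¹ r^(2j)`. -/
noncomputable def c (m : ℕ) (r : ℝ) : ℝ :=
  ∑ j ∈ Finset.range (m + 1), (m.choose j : ℝ) ^ 2 / ((2 * m).choose (2 * j) : ℝ) * r ^ (2 * j)

/-- `B(m) = 16^m / binom(4m,2m)` for `m ≠ 2` and `B(2) = √π Γ(9/2)/Γ(4) √(9/8)`. -/
noncomputable def B (m : ℕ) : ℝ :=
  if m = 2 then √π * Real.Gamma (9 / 2) / Real.Gamma 4 * √(9 / 8)
  else 16 ^ m / ((4 * m).choose (2 * m) : ℝ)

/-- The lower bound for the volume of vector fields of constant length `r` on the sphere of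
dimension `2m+1`; for `r = 1`, `m ≥ 3` it is the exact value `16^m / binom(4m,2m) · vol(S)`. -/
theorem result.{u} (m : ℕ) (hm : 2 ≤ m) (r : ℝ) (hr : 0 < r) :
    (∀ {E : Type u} [NormedAddCommGroup E] [InnerProductSpace ℝ E]
      [FiniteDimensional ℝ E] [MeasurableSpace E] [BorelSpace E]
      [Fact (finrank ℝ E = 2 * m + 1 + 1)]
      (W : sphere (0 : E) 1 → E), ContMDiff (𝓡 (2 * m + 1)) 𝓘(ℝ, E) 1 W →
      (∀ x : sphere (0 : E) 1, ⟪(x : E), W x⟫ = 0) → (∀ x, ‖W x‖ = r) →
      (c m r + min 1 (r ^ (2 * m)) * (B m - c m 1)) * (volume : Measure E).toSphere.real univ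
        ≤ fieldVolume W) ∧
    c m 1 < B m ∧
    (1 - 1 / 256 : ℝ) * (16 ^ 2 / ((4 * 2).choose (2 * 2) : ℝ)) ≤ B 2 := by
  have hc : c m 1 = 4 ^ m / ((2 * m).choose m : ℝ) := by
    rw [← Pool.Agent.Helper20.VF.sum_choose_sq, c]
    exact Finset.sum_congr rfl (fun j _ => by rw [one_pow, mul_one])
  have hB2 : B 2 = Pool.Agent.Helper20.VF.bm 2 := by
    rw [B, if_pos rfl, Pool.Agent.Helper20.VF.bm]
    norm_num
  refine ⟨?_, ?_, ?_⟩
  · intro E _ _ _ _ _ _ W hW htan hnorm
    rw [hc]
    by_cases h2 : m = 2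
    · subst h2
      rw [hB2]
      exact Pool.Agent.Helper20.VF.fieldVolume_ge_r 2 hm hr W hW htan hnorm
    · rw [B, if_neg h2]
      exact Pool.Agent.Helper19.PS.fieldVolume_ge_r_sharp m (by omega) hr W hW htan hnorm
  · rw [hc]
    have h1 := Pool.Agent.Helper20.VF.c_lt_bm hm
    by_cases h2 : m = 2
    · subst h2
      rw [hB2]
      exact h1
    · rw [B, if_neg h2]
      have h3 : Pool.Agent.Helper20.VF.qn (m + 1) ≤ Pool.Agent.Helper20.VF.qn (2 * m) :=
        Pool.Agent.Helper20.VF.qn_mono (by omega)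
      rw [← Pool.Agent.Helper20.VF.cst_eq_qn, Pool.Agent.Helper20.VF.qn_succ] at h3
      have h4 := Pool.Agent.Helper20.VF.qn_pos m
      have h5 : Pool.Agent.Helper20.VF.qn m
          < Pool.Agent.Helper20.VF.qn m * ((2 * (m : ℝ) + 2) / (2 * m + 1)) := by
        refine lt_mul_of_one_lt_right h4 ?_
        rw [lt_div_iff₀ (by positivity)]
        linarith
      exact h5.trans_le h3
  · rw [hB2]
    have h1 := Pool.Agent.Helper20.VF.cst_le_bm (m := 2) (by norm_num)
    rw [Pool.Agent.Helper20.VF.cst] at h1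
    refine le_trans (le_of_eq ?_) h1
    norm_num

end Pool.Agent.Results.MP_19c155_gt.ExactUnitVolume
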