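import Pool.Agent.Helper19.PU.Final
import Pool.Agent.Helper19.PQ.Strict
import Pool.Agent.Helper39.PU.P1

/-!
# The infimum of the volume of smooth unit vector fields on odd-dimensional spheres is not attained

For every `m ≥ 3` and the round unit sphere `S` of a `(2m+2)`-dimensional Euclidean space:

* the infimum of the volumes of the smooth unit tangent vector fields on `S` is exactly
  `16^m / binom(4m,2m) · vol(S)`;
* no smooth (even no `C²`) unit tangent vector field attains it.
-/

open MeasureTheory Set Metric Module Filter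
open scoped RealInnerProductSpace Real Manifold ContDiff

namespace Pool.Agent.Results.MP_19c155_gt.InfimumNotAttained

open Classical in
/-- The radially constant extension `y ↦ W (y/|y|)` of a map on the unit sphere (`0` at `0`). -/
noncomputable def radialExt {E : Type*} [NormedAddCommGroup E] [InnerProductSpace ℝ E]
    (W : sphere (0 : E) 1 → E) (y : E) : E :=
  if hy : y = 0 then 0
  else W ⟨‖y‖⁻¹ • y, mem_sphere_zero_iff_norm.2 (Pool.Agent.Helper20.VF.norm_normalize hy)⟩

/-- The covariant derivative `(∇W)_x` at a point `x` of the unit sphere `S ⊂ E` of a vector field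
`W : S → E`: the orthogonal projection to `x^⊥ = T_x S` of the derivative at `x` of the radially
constant extension of `W`.  As an operator on `E = ℝx ⊕ T_x S` it is zero on `ℝx`, and it has
values in `T_x S`. -/
noncomputable def covDeriv {E : Type*} [NormedAddCommGroup E] [InnerProductSpace ℝ E]
    (W : sphere (0 : E) 1 → E) (x : sphere (0 : E) 1) : E →L[ℝ] E :=
  fderiv ℝ (radialExt W) x - ((innerSL ℝ (x : E)) ∘L fderiv ℝ (radialExt W) x).smulRight (x : E)

/-- The volume of a vector field on the unit sphere: `∫_S √det (I + (∇W)ᵗ ∇W)` with respect to the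
surface measure. -/
noncomputable def fieldVolume {E : Type*} [NormedAddCommGroup E] [InnerProductSpace ℝ E]
    [FiniteDimensional ℝ E] [MeasurableSpace E] [BorelSpace E] (W : sphere (0 : E) 1 → E) : ℝ :=
  ∫ x : sphere (0 : E) 1, √((1 + (covDeriv W x).adjoint ∘L covDeriv W x).det)
    ∂(volume : Measure E).toSphere

/-- For `m ≥ 3` the infimum of the volumes of the smooth unit vector fields on the unit sphere of
dimension `2m+1` is `16^m / binom(4m,2m) · vol(S)`, and every `C²` unit vector field has strictly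
larger volume. -/
theorem result.{u} (m : ℕ) (hm : 3 ≤ m) {E : Type u} [NormedAddCommGroup E]
    [InnerProductSpace ℝ E] [FiniteDimensional ℝ E] [MeasurableSpace E] [BorelSpace E]
    [Fact (finrank ℝ E = 2 * m + 1 + 1)] :
    IsGLB {v : ℝ | ∃ W : sphere (0 : E) 1 → E, ContMDiff (𝓡 (2 * m + 1)) 𝓘(ℝ, E) ∞ W ∧
        (∀ x : sphere (0 : E) 1, ⟪(x : E), W x⟫ = 0) ∧ (∀ x, ‖W x‖ = 1) ∧ fieldVolume W = v}
      (16 ^ m / ((4 * m).choose (2 * m) : ℝ) * (volume : Measure E).toSphere.real univ) ∧
    ∀ W : sphere (0 : E) 1 → E, ContMDiff (𝓡 (2 * m + 1)) 𝓘(ℝ, E) 2 W →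
      (∀ x : sphere (0 : E) 1, ⟪(x : E), W x⟫ = 0) → (∀ x, ‖W x‖ = 1) →
      16 ^ m / ((4 * m).choose (2 * m) : ℝ) * (volume : Measure E).toSphere.real univ
        < fieldVolume W := by
  have hfr : finrank ℝ E = 2 * m + 2 := Fact.out (p := finrank ℝ E = 2 * m + 1 + 1)
  have hstrict : ∀ W : sphere (0 : E) 1 → E, ContMDiff (𝓡 (2 * m + 1)) 𝓘(ℝ, E) 2 W →
      (∀ x : sphere (0 : E) 1, ⟪(x : E), W x⟫ = 0) → (∀ x, ‖W x‖ = 1) →
      16 ^ m / ((4 * m).choose (2 * m) : ℝ) * (volume : Measure E).toSphere.real univ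
        < fieldVolume W := by
    intro W hW ht hu
    exact Pool.Agent.Helper19.PQ.strict_unit m hm W hW ht hu
  refine ⟨⟨?_, ?_⟩, hstrict⟩
  · rintro v ⟨W, hW, ht, hu, rfl⟩
    exact (hstrict W (hW.of_le (WithTop.coe_le_coe.2 (le_top : (2 : ℕ∞) ≤ ⊤))) ht hu).le
  · intro l hl
    have hnt : Nontrivial E := Module.nontrivial_of_finrank_pos (R := ℝ) (by omega)
    obtain ⟨J, hJ⟩ := Pool.Agent.Helper19.PU.exists_CS (E := E) (m + 1) (by omega)
    obtain ⟨a, ha⟩ := exists_norm_eq E (zero_le_one (α := ℝ))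
    have h1 := Pool.Agent.Helper19.PU.tendsto_volume m (by omega) hJ ha
    refine ge_of_tendsto' h1 (fun k => hl ?_)
    have hk : (1 / ((k : ℝ) + 1)) ≠ 0 := by positivity
    have hx1 : ∀ x : sphere (0 : E) 1, ‖(x : E)‖ = 1 := fun x => mem_sphere_zero_iff_norm.1 x.2
    exact ⟨fun y : sphere (0 : E) 1 => Pool.Agent.Helper19.PU.Wm J a (1 / ((k : ℝ) + 1)) (y : E),
      Pool.Agent.Helper19.PU.contMDiff_Wm J ha hk,
      fun x => Pool.Agent.Helper19.PU.inner_Wm hJ ha (hx1 x) _,
      fun x => Pool.Agent.Helper19.PU.norm_Wm hJ ha (hx1 x) (Or.inl hk), rfl⟩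

end Pool.Agent.Results.MP_19c155_gt.InfimumNotAttained
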