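import Pool.Agent.Helper19.HO.Final

/-!
# Hopf fields minimise volume among odd fields and among fields with geodesic integral curves

Let `S` be the round unit sphere of a `(2m+2)`-dimensional Euclidean space and `r > 0`.  Every `C¹`
tangent vector field `W` on `S` of constant length `r` that is odd (`W(-x) = -W(x)`, a field on the
projective space) or whose integral curves are geodesics (`∇_W W = 0`, a great circle fibration)
has volume at least `(1+r²)^m vol(S)`, with equality exactly for the Hopf fields `x ↦ r J x`, `J` an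
orthogonal complex structure.
-/

open MeasureTheory Set Metric Module Filter
open scoped RealInnerProductSpace Real Manifold ContDiff

namespace Pool.Agent.Results.MP_19c155_gt.OddFieldsHopf

open Classical in
/-- The radially constant extension `y ↦ W (y/|y|)` of a map on the unit sphere (`0` at `0`). -/
noncomputable def radialExt {E : Type*} [NormedAddCommGroup E] [InnerProductSpace ℝ E]
    (W : sphere (0 : E) 1 → E) (y : E) : E :=
  if hy : y = 0 then 0
  else W ⟨‖y‖⁻¹ • y, by
    rw [mem_sphere_zero_iff_norm, norm_smul, norm_inv, norm_norm,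
      inv_mul_cancel₀ (norm_ne_zero_iff.2 hy)]⟩

/-- The covariant derivative `(∇W)_x` at a point `x` of the unit sphere `S ⊂ E` of a vector field
`W : S → E`: the orthogonal projection to `x^⊥ = T_x S` of the derivative at `x` of the radially
constant extension of `W`.  As an operator on `E = ℝx ⊕ T_x S` it is zero on `ℝx`, and it has
values in `T_x S`. -/
noncomputable def covDeriv {E : Type*} [NormedAddCommGroup E] [InnerProductSpace ℝ E]
    (W : sphere (0 : E) 1 → E) (x : sphere (0 : E) 1) : E →L[ℝ] E :=
  fderiv ℝ (radialExt W) x - ((innerSL ℝ (x : E)) ∘L fderiv ℝ (radialExt W) x).smulRight (x : E)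

/-- The volume of a vector field on the unit sphere: `∫_S √det (I + (∇W)ᵗ ∇W)` with respect to the
surface measure. -/
noncomputable def fieldVolume {E : Type*} [NormedAddCommGroup E] [InnerProductSpace ℝ E]
    [FiniteDimensional ℝ E] [MeasurableSpace E] [BorelSpace E] (W : sphere (0 : E) 1 → E) : ℝ :=
  ∫ x : sphere (0 : E) 1, √((1 + (covDeriv W x).adjoint ∘L covDeriv W x).det)
    ∂(volume : Measure E).toSphere

/-- Hopf fields of length `r`: `W x = r J x` with `J` an orthogonal complex structure. -/
def IsHopf {E : Type*} [NormedAddCommGroup E] [InnerProductSpace ℝ E] (r : ℝ)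
    (W : sphere (0 : E) 1 → E) : Prop :=
  ∃ J : E →L[ℝ] E, (∀ x y, ⟪J x, J y⟫ = ⟪x, y⟫) ∧ (∀ x, J (J x) = -x) ∧
    ∀ x : sphere (0 : E) 1, W x = r • J x

/-- A `C¹` tangent field of constant length `r > 0` on the unit sphere of dimension `2m+1` that is
odd or has geodesic integral curves has volume at least `(1+r²)^m vol(S)`, with equality exactly
for the Hopf fields; and the Hopf fields are odd and have geodesic integral curves. -/
theorem result.{u} (m : ℕ) {r : ℝ} (hr : 0 < r) {E : Type u} [NormedAddCommGroup E]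
    [InnerProductSpace ℝ E] [FiniteDimensional ℝ E] [MeasurableSpace E] [BorelSpace E]
    [Fact (finrank ℝ E = 2 * m + 1 + 1)] (W : sphere (0 : E) 1 → E)
    (hW : ContMDiff (𝓡 (2 * m + 1)) 𝓘(ℝ, E) 1 W)
    (ht : ∀ x : sphere (0 : E) 1, ⟪(x : E), W x⟫ = 0) (hn : ∀ x, ‖W x‖ = r) :
    ((∀ x, W (-x) = -W x) ∨ (∀ x, covDeriv W x (W x) = 0) →
      (1 + r ^ 2) ^ m * (volume : Measure E).toSphere.real univ ≤ fieldVolume W ∧
      (fieldVolume W = (1 + r ^ 2) ^ m * (volume : Measure E).toSphere.real univ ↔
        IsHopf r W)) ∧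
    (IsHopf r W → (∀ x, W (-x) = -W x) ∧ ∀ x, covDeriv W x (W x) = 0) := by
  obtain ⟨h1, h2, -⟩ := Pool.Agent.Helper19.HO.main m hr (E := E)
  refine ⟨fun h => h1 W hW ht hn (h.elim id (h2 W hW ht hn)), ?_⟩
  rintro ⟨J, hJ, hJJ, hWJ⟩
  have e : W = fun y : sphere (0 : E) 1 => r • J (y : E) := funext hWJ
  have hfr : finrank ℝ E = 2 * m + 2 := Fact.out (p := finrank ℝ E = 2 * m + 1 + 1)
  refine ⟨fun x => ?_, fun x => ?_⟩
  · rw [hWJ, hWJ, show ((-x : sphere (0 : E) 1) : E) = -(x : E) from rfl, map_neg, smul_neg]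
  · rw [e]
    exact Pool.Agent.Helper19.HO.hopf_geodesic (m := m) hJ hJJ r hr hfr x

end Pool.Agent.Results.MP_19c155_gt.OddFieldsHopf
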