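import Pool.Agent.Helper59.DF.Final

/-!
# The volume of divergence free fields of constant length on the five-sphere, and the Hopf fields

On the unit sphere of dimension five the Hopf fields are exactly the fields of least volume among
all divergence free `C¹` fields of constant length `r`, for every `r > 0`, and the divergence of
any field of smaller volume is bounded below in the mean. In all dimensions the same holds for the
fields `W` with `det (I + ∇W) = det (I - ∇W)`, i.e. for which the elementary symmetric functions of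
odd order of `∇W` have sum zero.
-/

open MeasureTheory Set Metric Module Filter
open scoped RealInnerProductSpace Real Manifold ContDiff

namespace Pool.Agent.Results.MP_19c155_gt.SolenoidalHopf

open Classical in
/-- The radially constant extension `y ↦ W (y/|y|)` of a map on the unit sphere (`0` at `0`). -/
noncomputable def radialExt {E : Type*} [NormedAddCommGroup E] [InnerProductSpace ℝ E]
    (W : sphere (0 : E) 1 → E) (y : E) : E :=
  if hy : y = 0 then 0
  else W ⟨‖y‖⁻¹ • y, by
    rw [mem_sphere_zero_iff_norm, norm_smul, norm_inv, norm_norm,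
      inv_mul_cancel₀ (norm_ne_zero_iff.2 hy)]⟩

/-- The covariant derivative `(∇W)_x` at a point `x` of the unit sphere `S ⊂ E` of a vector field
`W : S → E`: the orthogonal projection to `x^⊥ = T_x S` of the derivative at `x` of the radially
constant extension of `W`.  As an operator on `E = ℝx ⊕ T_x S` it is zero on `ℝx`, and it has
values in `T_x S`. -/
noncomputable def covDeriv {E : Type*} [NormedAddCommGroup E] [InnerProductSpace ℝ E]
    (W : sphere (0 : E) 1 → E) (x : sphere (0 : E) 1) : E →L[ℝ] E :=
  fderiv ℝ (radialExt W) x - ((innerSL ℝ (x : E)) ∘L fderiv ℝ (radialExt W) x).smulRight (x : E)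

/-- The volume of a vector field on the unit sphere: `∫_S √det (I + (∇W)ᵗ ∇W)` with respect to the
surface measure. -/
noncomputable def fieldVolume {E : Type*} [NormedAddCommGroup E] [InnerProductSpace ℝ E]
    [FiniteDimensional ℝ E] [MeasurableSpace E] [BorelSpace E] (W : sphere (0 : E) 1 → E) : ℝ :=
  ∫ x : sphere (0 : E) 1, √((1 + (covDeriv W x).adjoint ∘L covDeriv W x).det)
    ∂(volume : Measure E).toSphere

/-- The divergence of a vector field on the unit sphere: the trace of its covariant derivative. -/
noncomputable def divergence {E : Type*} [NormedAddCommGroup E] [InnerProductSpace ℝ E]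
    (W : sphere (0 : E) 1 → E) (x : sphere (0 : E) 1) : ℝ :=
  LinearMap.trace ℝ E (covDeriv W x : E →ₗ[ℝ] E)

/-- `W` is a Hopf field of length `r`: `W x = r J x` with `J` an orthogonal complex structure. -/
def IsHopf {E : Type*} [NormedAddCommGroup E] [InnerProductSpace ℝ E] (r : ℝ)
    (W : sphere (0 : E) 1 → E) : Prop :=
  ∃ J : E →L[ℝ] E, (∀ x y, ⟪J x, J y⟫ = ⟪x, y⟫) ∧ (∀ x, J (J x) = -x) ∧
    ∀ x : sphere (0 : E) 1, W x = r • J x

/-- Let `W` be a `C¹` tangent field of constant length `r` on the unit sphere `S` of dimension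
`2m+1`, `m ≥ 1`.

(1) If `m = 2` and `W` is divergence free, or if `det (I + ∇W) = det (I - ∇W)` everywhere, then
`Vol(W) ≥ (1+r²)^m vol(S)`, with equality exactly for the Hopf fields.

(2) If `m = 2`, then `Vol(W) + 1/4 ∫ (div W)² ≥ (1+r²)² vol(S)`, with equality exactly for the Hopf
fields.

(3) Hopf fields satisfy both conditions of (1). -/
theorem result.{u} (m : ℕ) (hm : 1 ≤ m) {r : ℝ} (hr : 0 < r) {E : Type u} [NormedAddCommGroup E]
    [InnerProductSpace ℝ E] [FiniteDimensional ℝ E] [MeasurableSpace E] [BorelSpace E]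
    [Fact (finrank ℝ E = 2 * m + 1 + 1)] (W : sphere (0 : E) 1 → E)
    (hW : ContMDiff (𝓡 (2 * m + 1)) 𝓘(ℝ, E) 1 W)
    (ht : ∀ x : sphere (0 : E) 1, ⟪(x : E), W x⟫ = 0) (hn : ∀ x, ‖W x‖ = r) :
    ((m = 2 ∧ ∀ x, divergence W x = 0) ∨ (∀ x, (1 + covDeriv W x).det = (1 - covDeriv W x).det) →
      (1 + r ^ 2) ^ m * (volume : Measure E).toSphere.real univ ≤ fieldVolume W ∧
      (fieldVolume W = (1 + r ^ 2) ^ m * (volume : Measure E).toSphere.real univ ↔
        IsHopf r W)) ∧
    (m = 2 →
      (1 + r ^ 2) ^ m * (volume : Measure E).toSphere.real univ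
        ≤ fieldVolume W + 1 / 4 * ∫ x, divergence W x ^ 2 ∂(volume : Measure E).toSphere ∧
      (fieldVolume W + 1 / 4 * ∫ x, divergence W x ^ 2 ∂(volume : Measure E).toSphere
        = (1 + r ^ 2) ^ m * (volume : Measure E).toSphere.real univ ↔ IsHopf r W)) ∧
    (IsHopf r W →
      ∀ x, divergence W x = 0 ∧ (1 + covDeriv W x).det = (1 - covDeriv W x).det) := by
  obtain ⟨-, h2, h3, h4⟩ := (Pool.Agent.Helper59.DF.final m hm hr (E := E)).1 W hW ht hn
  refine ⟨fun h => h.elim (fun h => h4 h.1 h.2) h2, h3, fun h x => ?_⟩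
  obtain ⟨h5, h6, -⟩ := Pool.Agent.Helper59.DF.hopf_all hm hr h
  refine ⟨h6 x, sub_eq_zero.mp ?_⟩
  have h7 : ((1 + covDeriv W x).det - (1 - covDeriv W x).det) / 2 = 0 := h5 x
  linarith

end Pool.Agent.Results.MP_19c155_gt.SolenoidalHopf
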